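import Pool.Agent.N352.PJ.Def

/-!
# Project PJ (helper352): few bad polynomials, `S_BAD` from `S_BOX`, `S_BOX0`, `S_ORB`, `S_EXP`
(helper270)
-/

set_option autoImplicit false
set_option linter.all false

open Polynomial IsDedekindDomain
open scoped Classical

namespace Pool.Agent.N270.PJ

open Pool.Agent.N352.PJ
open Pool.Agent.N874.PP (nm)

section types

variable {g : ℕ} {w : Fin (2 * g + 1) → ℤ}

theorem typ_mid (hw : Typ g w) : w ⟨g, by omega⟩ = 0 := by
  have h := hw.anti ⟨g, by omega⟩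
  have h2 : Fin.rev (⟨g, by omega⟩ : Fin (2 * g + 1)) = ⟨g, by omega⟩ := by
    ext
    simp [Fin.val_rev]
    omega
  rw [h2] at h
  omega

theorem typ_nonpos (hw : Typ g w) (i : Fin (2 * g + 1)) (hi : (i : ℕ) ≤ g) : w i ≤ 0 := by
  have h := hw.mono (show i ≤ (⟨g, by omega⟩ : Fin (2 * g + 1)) from hi)
  rw [typ_mid hw] at h
  exact h

theorem reg_bd {N : ℕ} (hw : Typ g w) (hr : Reg g N w) : ∀ (d : ℕ) (i : Fin (2 * g + 1)),
    (i : ℕ) + d = g → - w i ≤ 2 * N * d := by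
  intro d
  induction d with
  | zero =>
    intro i hi
    have h2 : i = (⟨g, by omega⟩ : Fin (2 * g + 1)) := by
      ext
      simpa using hi
    rw [h2, typ_mid hw]
    simp
  | succ d ih =>
    intro i hi
    have h1 := ih (⟨(i : ℕ) + 1, by omega⟩ : Fin (2 * g + 1)) (by simp; omega)
    have h2 := hr.gap i (⟨(i : ℕ) + 1, by omega⟩ : Fin (2 * g + 1)) rfl
    push_cast
    nlinarith

/-- The index of a type. -/
def idx (w : Fin (2 * g + 1) → ℤ) (i : Fin g) : ℕ := (- w ⟨i, by omega⟩).toNat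

theorem idx_inj {w' : Fin (2 * g + 1) → ℤ} (hw : Typ g w) (hw' : Typ g w') (h : idx w = idx w') :
    w = w' := by
  have key : ∀ i : Fin (2 * g + 1), (i : ℕ) < g → w i = w' i := by
    intro i hi
    have h1 : (- w i).toNat = (- w' i).toNat := congrFun h ⟨i, hi⟩
    have h2 := typ_nonpos hw i hi.le
    have h3 := typ_nonpos hw' i hi.le
    omega
  funext i
  rcases lt_trichotomy (i : ℕ) g with hi | hi | hi
  · exact key i hi
  · have h2 : i = (⟨g, by omega⟩ : Fin (2 * g + 1)) := by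
      ext
      simpa using hi
    rw [h2, typ_mid hw, typ_mid hw']
  · have h1 := key (Fin.rev i) (by rw [Fin.val_rev]; omega)
    rw [hw.anti, hw'.anti] at h1
    omega

theorem sum_idx_le_uu (hw : Typ g w) : ∑ i, idx w i ≤ uu g w := by
  let e : Fin g ↪ Fin (2 * g + 1) × Fin (2 * g + 1) :=
    ⟨fun i => (⟨i, by omega⟩, ⟨g, by omega⟩), fun i j hij => by
      ext
      have := congrArg (fun p => ((p.1 : Fin (2 * g + 1)) : ℕ)) hij
      simpa using this⟩
  unfold uu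
  calc ∑ i, idx w i ≤ ∑ i : Fin g, (w (e i).2 - w (e i).1 + 1).toNat := by
        refine Finset.sum_le_sum fun i _ => ?_
        show (- w ⟨i, by omega⟩).toNat ≤ (w ⟨g, by omega⟩ - w ⟨i, by omega⟩ + 1).toNat
        rw [typ_mid hw]
        omega
    _ = ∑ p ∈ Finset.univ.map e, (w p.2 - w p.1 + 1).toNat := by rw [Finset.sum_map]
    _ ≤ _ := by
        refine Finset.sum_le_sum_of_subset ?_
        intro p hp
        rw [Finset.mem_map] at hp
        obtain ⟨i, _, rfl⟩ := hp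
        rw [Finset.mem_filter]
        refine ⟨Finset.mem_univ _, ?_, ?_⟩
        · show (⟨i, by omega⟩ : Fin (2 * g + 1)) < ⟨g, by omega⟩
          exact i.2
        · show (i : ℕ) + g < 2 * g
          omega

theorem min_le_sum (N : ℕ) (hg : 1 ≤ g) (hw : Typ g w) : min (- w 0) N ≤
    ∑ i ∈ Finset.univ.filter (fun i : Fin (2 * g + 1) => (i : ℕ) < g), min (- w i) N := by
  refine Finset.single_le_sum (f := fun i => min (- w i) (N : ℤ)) (fun i hi => ?_) ?_
  · rw [Finset.mem_filter] at hi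
    have := typ_nonpos hw i hi.2.le
    exact le_min (by omega) (by omega)
  · rw [Finset.mem_filter]
    exact ⟨Finset.mem_univ _, by simp; omega⟩

end types

theorem geo (L : ℕ) : ∑ m ∈ Finset.range L, (1 / 2 : ℝ) ^ m ≤ 2 := by
  have h : ∀ n : ℕ, ∑ m ∈ Finset.range n, (1 / 2 : ℝ) ^ m = 2 - 2 * (1 / 2) ^ n := by
    intro n
    induction n with
    | zero => simp
    | succ n ih =>
      rw [Finset.sum_range_succ, ih, pow_succ]
      ring
  rw [h]
  have : (0 : ℝ) ≤ (1 / 2) ^ L := by positivity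
  linarith

theorem growth (A g δ : ℕ) : ∃ N₀ : ℕ, ∀ N ≥ N₀, A * (2 * g * N + 1) ^ g ≤ 2 ^ (N - δ) := by
  have h := (tendsto_pow_const_div_const_pow_of_one_lt g (one_lt_two : (1 : ℝ) < 2)).const_mul
    ((A : ℝ) * (2 * g + 1) ^ g * 2 ^ δ)
  rw [mul_zero] at h
  have h2 := (h.eventually (gt_mem_nhds (zero_lt_one : (0 : ℝ) < 1)))
  obtain ⟨N₁, hN₁⟩ := Filter.eventually_atTop.1 h2
  refine ⟨N₁ + δ + 1, fun N hN => ?_⟩
  have h3 := hN₁ N (by omega)
  have h4 : (0 : ℝ) < 2 ^ N := by positivity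
  have h5 : (A : ℝ) * (2 * g + 1) ^ g * 2 ^ δ * (N : ℝ) ^ g < 2 ^ N := by
    rw [← mul_div_assoc, div_lt_one h4] at h3
    exact h3
  have h6 : A * (2 * g + 1) ^ g * 2 ^ δ * N ^ g < 2 ^ N := by exact_mod_cast h5
  have h7 : 2 ^ N = 2 ^ (N - δ) * 2 ^ δ := by
    rw [← pow_add]
    congr 1
    omega
  have h8 : (2 * g * N + 1) ^ g ≤ (2 * g + 1) ^ g * N ^ g := by
    rw [← mul_pow]
    refine Nat.pow_le_pow_left ?_ _
    nlinarith [hN]
  rw [h7] at h6
  have h9 : A * (2 * g + 1) ^ g * N ^ g < 2 ^ (N - δ) := by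
    refine lt_of_mul_lt_mul_right (a := 2 ^ δ) ?_ (by positivity)
    calc A * (2 * g + 1) ^ g * N ^ g * 2 ^ δ = A * (2 * g + 1) ^ g * 2 ^ δ * N ^ g := by ring
      _ < _ := h6
  calc A * (2 * g * N + 1) ^ g ≤ A * ((2 * g + 1) ^ g * N ^ g) := Nat.mul_le_mul_left _ h8
    _ = A * (2 * g + 1) ^ g * N ^ g := by ring
    _ ≤ _ := h9.le

theorem ncard_biUnion_le {α ι : Type} (P : ι → Set α) (s : Finset ι) :
    (⋃ m ∈ s, P m).ncard ≤ ∑ m ∈ s, (P m).ncard := by
  induction s using Finset.induction_on with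
  | empty => simp
  | insert a s ha ih =>
    rw [Finset.set_biUnion_insert, Finset.sum_insert ha]
    exact (Set.ncard_union_le _ _).trans (Nat.add_le_add_left ih _)

theorem bad (h1 : S_BOX) (h2 : S_BOX0) (h3 : S_ORB) (h4 : S_EXP) : S_BAD := by
  intro g k _ _ hg h20 S h hS
  obtain ⟨A, hA⟩ : ∃ A : ℕ, A = 2 ^ S.card * (∏ Q ∈ S, nm Q ^ (2 * g)) := ⟨_, rfl⟩
  obtain ⟨δ, hδ⟩ : ∃ δ : ℕ, δ = (∏ Q ∈ S, Q).natDegree := ⟨_, rfl⟩
  obtain ⟨q, hqd⟩ : ∃ q : ℕ, q = Nat.card k := ⟨_, rfl⟩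
  have hq : 2 ≤ q := by
    rw [hqd]
    exact Finite.one_lt_card
  obtain ⟨N₀, hN₀⟩ := growth A g δ
  refine ⟨N₀, fun N hN => ?_⟩
  obtain ⟨E, hE⟩ : ∃ E : ℕ, E = (2 * N + 1) * dd g := ⟨_, rfl⟩
  let P : (Fin (2 * g + 1) → ℤ) → Set k[X][X] := fun w =>
    {f : k[X][X] | Irreducible f ∧ ∃ B : Mt g k[X], Xset g N w S h B ∧ chp B = f}
  have hPfin : ∀ w, Typ g w → (P w).Finite := by
    intro w hw
    refine ((h2 g k h20 S h N w hw).1.image chp).subset ?_
    rintro f ⟨_, B, hB, hf⟩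
    exact ⟨B, hB, hf⟩
  -- the types
  let W : Set (Fin (2 * g + 1) → ℤ) := {w | Typ g w ∧ Reg g N w}
  have hidx : ∀ w ∈ W, idx w ∈ Fintype.piFinset fun _ : Fin g => Finset.range (2 * g * N + 1) := by
    intro w hw
    rw [Fintype.mem_piFinset]
    intro i
    rw [Finset.mem_range]
    have h5 := reg_bd hw.1 hw.2 (g - i) ⟨i, by omega⟩
      (by show (i : ℕ) + (g - i) = g; omega)
    have h6 : (2 : ℤ) * N * ((g - i : ℕ) : ℤ) ≤ 2 * N * g := by
      refine mul_le_mul_of_nonneg_left ?_ (by positivity)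
      omega
    have h7 : (2 : ℤ) * N * g = ((2 * g * N : ℕ) : ℤ) := by
      push_cast
      ring
    have h8 := h5.trans (h6.trans_eq h7)
    unfold idx
    omega
  have hinj : Set.InjOn (idx (g := g)) W := fun w hw w' hw' hww =>
    idx_inj hw.1 hw'.1 hww
  have hWfin : W.Finite := by
    refine Set.Finite.of_finite_image ?_ hinj
    refine (Finset.finite_toSet
      (Fintype.piFinset fun _ : Fin g => Finset.range (2 * g * N + 1))).subset ?_
    rintro _ ⟨w, hw, rfl⟩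
    exact hidx w hw
  obtain ⟨V, hV⟩ : ∃ V : Finset (Fin (2 * g + 1) → ℤ), V = hWfin.toFinset := ⟨_, rfl⟩
  have hVm : ∀ w, w ∈ V ↔ w ∈ W := fun w => by rw [hV, Set.Finite.mem_toFinset]
  have hsub : {f : k[X][X] | LBad g N S h f} ⊆ ⋃ w ∈ V, P w := by
    rintro f ⟨hf, w, hw, hr, B, hB⟩
    rw [Set.mem_iUnion₂]
    exact ⟨w, (hVm w).2 ⟨hw, hr⟩, hf, B, hB⟩
  have hfin : (⋃ w ∈ V, P w).Finite :=
    Set.Finite.biUnion (Finset.finite_toSet _) fun w hw =>
      hPfin w ((hVm w).1 (Finset.mem_coe.1 hw)).1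
  have hle : {f : k[X][X] | LBad g N S h f}.ncard ≤ ∑ w ∈ V, (P w).ncard :=
    (Set.ncard_le_ncard hsub hfin).trans (ncard_biUnion_le P V)
  -- each term
  have hterm : ∀ w ∈ V, (A : ℝ) * ((P w).ncard : ℝ) ≤
      (q : ℝ) ^ E * (∏ i, (1 / 2 : ℝ) ^ idx w i + 1 / ((2 * g * N + 1 : ℕ) : ℝ) ^ g) := by
    intro w hwV
    have hw := (hVm w).1 hwV
    have ho : (P w).ncard * q ^ uu g w ≤ {B : Mt g k[X] | Xset g N w S h B}.ncard := by
      rw [hqd]
      exact h3 g k h20 S h N w hw.1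
    have hE0 : (0 : ℝ) ≤ (q : ℝ) ^ E := by positivity
    by_cases hc : (δ : ℤ) ≤ 2 * N + 2 * w 0
    · have hb := h1 g k hg h20 S h hS N w hw.1 (by rw [← hδ]; exact hc)
      rw [← hA, ← hqd, ← hE] at hb
      have key : A * (P w).ncard * 2 ^ (∑ i, idx w i) ≤ q ^ E := by
        calc A * (P w).ncard * 2 ^ (∑ i, idx w i) ≤ A * (P w).ncard * q ^ (uu g w) :=
              Nat.mul_le_mul_left _ ((Nat.pow_le_pow_left hq _).trans
                (Nat.pow_le_pow_right (by omega) (sum_idx_le_uu hw.1)))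
          _ = A * ((P w).ncard * q ^ (uu g w)) := by ring
          _ ≤ A * {B : Mt g k[X] | Xset g N w S h B}.ncard := Nat.mul_le_mul_left _ ho
          _ ≤ q ^ E := hb
      have key' : (A : ℝ) * ((P w).ncard : ℝ) * 2 ^ (∑ i, idx w i) ≤ (q : ℝ) ^ E := by
        exact_mod_cast key
      have h8 : ∏ i, (1 / 2 : ℝ) ^ idx w i = 1 / 2 ^ (∑ i, idx w i) := by
        rw [Finset.prod_pow_eq_pow_sum, one_div_pow]
      rw [h8]
      have h9 : (A : ℝ) * ((P w).ncard : ℝ) ≤ (q : ℝ) ^ E * (1 / 2 ^ (∑ i, idx w i)) := by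
        rw [mul_one_div, le_div_iff₀ (by positivity)]
        exact key'
      refine h9.trans (mul_le_mul_of_nonneg_left ?_ hE0)
      have : (0 : ℝ) ≤ 1 / ((2 * g * N + 1 : ℕ) : ℝ) ^ g := by positivity
      linarith
    · have hb := (h2 g k h20 S h N w hw.1).2
      rw [← hqd] at hb
      have he := h4 g N w hw.1 hw.2
      have hm := min_le_sum N hg hw.1
      have h50 : w 0 ≤ 0 := typ_nonpos hw.1 0 (by simp)
      have h5 : ((N - δ : ℕ) : ℤ) ≤ min (- w 0) N := by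
        refine le_min ?_ ?_ <;> omega
      have h6 : ee g N w + (N - δ) ≤ E + uu g w := by
        have : (0 : ℤ) ≤ (g : ℤ) ^ 2 := by positivity
        have h7 : (E : ℤ) = (2 * N + 1) * dd g := by rw [hE]; push_cast; ring
        omega
      have h7 : (P w).ncard * q ^ (N - δ) ≤ q ^ E := by
        have h8 : (P w).ncard * q ^ (N - δ) * q ^ uu g w ≤ q ^ E * q ^ uu g w := by
          calc (P w).ncard * q ^ (N - δ) * q ^ uu g w = (P w).ncard * q ^ uu g w * q ^ (N - δ) := by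
                ring
            _ ≤ q ^ ee g N w * q ^ (N - δ) := Nat.mul_le_mul_right _ (ho.trans hb)
            _ = q ^ (ee g N w + (N - δ)) := by rw [pow_add]
            _ ≤ q ^ (E + uu g w) := Nat.pow_le_pow_right (by omega) h6
            _ = _ := by rw [pow_add]
        exact Nat.le_of_mul_le_mul_right h8 (by positivity)
      have key : A * (P w).ncard * (2 * g * N + 1) ^ g ≤ q ^ E := by
        calc A * (P w).ncard * (2 * g * N + 1) ^ g = (P w).ncard * (A * (2 * g * N + 1) ^ g) := by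
              ring
          _ ≤ (P w).ncard * 2 ^ (N - δ) := Nat.mul_le_mul_left _ (hN₀ N hN)
          _ ≤ (P w).ncard * q ^ (N - δ) := Nat.mul_le_mul_left _ (Nat.pow_le_pow_left hq _)
          _ ≤ q ^ E := h7
      have key' : (A : ℝ) * ((P w).ncard : ℝ) * ((2 * g * N + 1 : ℕ) : ℝ) ^ g ≤ (q : ℝ) ^ E := by
        exact_mod_cast key
      have h9 : (A : ℝ) * ((P w).ncard : ℝ) ≤
          (q : ℝ) ^ E * (1 / ((2 * g * N + 1 : ℕ) : ℝ) ^ g) := by
        rw [mul_one_div, le_div_iff₀ (by positivity)]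
        exact key'
      refine h9.trans (mul_le_mul_of_nonneg_left ?_ hE0)
      have : (0 : ℝ) ≤ ∏ i, (1 / 2 : ℝ) ^ idx w i := Finset.prod_nonneg fun i _ => by positivity
      linarith
  -- the sum
  have hs1 : ∑ w ∈ V, ∏ i, (1 / 2 : ℝ) ^ idx w i ≤ 2 ^ g := by
    have hVi : Set.InjOn (idx (g := g)) (V : Set _) := fun w hw w' hw' hww =>
      hinj ((hVm w).1 (Finset.mem_coe.1 hw)) ((hVm w').1 (Finset.mem_coe.1 hw')) hww
    calc ∑ w ∈ V, ∏ i, (1 / 2 : ℝ) ^ idx w i =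
        ∑ s ∈ V.image idx, ∏ i, (1 / 2 : ℝ) ^ s i := by rw [Finset.sum_image hVi]
      _ ≤ ∑ s ∈ Fintype.piFinset fun _ : Fin g => Finset.range (2 * g * N + 1),
          ∏ i, (1 / 2 : ℝ) ^ s i := by
        refine Finset.sum_le_sum_of_subset_of_nonneg ?_ fun s _ _ =>
          Finset.prod_nonneg fun i _ => by positivity
        intro s hs
        rw [Finset.mem_image] at hs
        obtain ⟨w, hw, rfl⟩ := hs
        exact hidx w ((hVm w).1 hw)
      _ = ∏ i : Fin g, ∑ m ∈ Finset.range (2 * g * N + 1), (1 / 2 : ℝ) ^ m := by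
        rw [Finset.prod_univ_sum]
      _ ≤ ∏ i : Fin g, (2 : ℝ) := Finset.prod_le_prod
          (fun i _ => Finset.sum_nonneg fun m _ => by positivity) fun i _ => geo _
      _ = 2 ^ g := by simp
  have hs2 : ∑ w ∈ V, 1 / ((2 * g * N + 1 : ℕ) : ℝ) ^ g ≤ 1 := by
    have hcard : V.card ≤ (2 * g * N + 1) ^ g := by
      have h5 := Finset.card_le_card_of_injOn (s := V)
        (t := Fintype.piFinset fun _ : Fin g => Finset.range (2 * g * N + 1)) idx
        (fun w hw => hidx w ((hVm w).1 (Finset.mem_coe.1 hw)))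
        (fun w hw w' hw' hww =>
          hinj ((hVm w).1 (Finset.mem_coe.1 hw)) ((hVm w').1 (Finset.mem_coe.1 hw')) hww)
      refine h5.trans_eq ?_
      rw [Fintype.card_piFinset]
      simp
    rw [Finset.sum_const, nsmul_eq_mul, mul_one_div, div_le_one (by positivity)]
    exact_mod_cast hcard
  have hsum : (A : ℝ) * ({f : k[X][X] | LBad g N S h f}.ncard : ℝ) ≤
      2 ^ (g + 1) * (q : ℝ) ^ E := by
    have h5 : ({f : k[X][X] | LBad g N S h f}.ncard : ℝ) ≤
        ∑ w ∈ V, ((P w).ncard : ℝ) := by exact_mod_cast hle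
    have h10 : (1 : ℝ) ≤ 2 ^ g := one_le_pow₀ (by norm_num)
    calc (A : ℝ) * ({f : k[X][X] | LBad g N S h f}.ncard : ℝ) ≤
        A * ∑ w ∈ V, ((P w).ncard : ℝ) := mul_le_mul_of_nonneg_left h5 (Nat.cast_nonneg A)
      _ = ∑ w ∈ V, (A : ℝ) * ((P w).ncard : ℝ) := Finset.mul_sum _ _ _
      _ ≤ ∑ w ∈ V, (q : ℝ) ^ E * (∏ i, (1 / 2 : ℝ) ^ idx w i + 1 / ((2 * g * N + 1 : ℕ) : ℝ) ^ g) :=
          Finset.sum_le_sum hterm
      _ = (q : ℝ) ^ E * (∑ w ∈ V, ∏ i, (1 / 2 : ℝ) ^ idx w i +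
            ∑ w ∈ V, 1 / ((2 * g * N + 1 : ℕ) : ℝ) ^ g) := by
          rw [← Finset.mul_sum, Finset.sum_add_distrib]
      _ ≤ (q : ℝ) ^ E * (2 ^ g + 1) :=
          mul_le_mul_of_nonneg_left (add_le_add hs1 hs2) (by positivity)
      _ ≤ (q : ℝ) ^ E * (2 ^ g + 2 ^ g) :=
          mul_le_mul_of_nonneg_left (by linarith) (by positivity)
      _ = _ := by ring
  have hsum' : A * {f : k[X][X] | LBad g N S h f}.ncard ≤ 2 ^ (g + 1) * q ^ E := by
    exact_mod_cast hsum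
  refine ⟨hfin.subset hsub, ?_⟩
  rw [← hA, ← hqd, ← hE]
  exact hsum'

end Pool.Agent.N270.PJ
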